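import Pool.Agent.Helper70_PDS.Stmts

/-!
# Squad PDS: module BIN
-/

set_option autoImplicit false

namespace PDS.H48

open Multiset

theorem bin : BinStmt := by
  intro T w s o b L
  induction L using Multiset.induction_on with
  | empty =>
    intro _ _
    exact ⟨fun _ => 0, by simp, fun i => Or.inl rfl⟩
  | cons t L ih =>
    intro hw hb
    rw [map_cons, sum_cons] at hb
    obtain ⟨A, hA, hA'⟩ := ih (fun x hx => hw x (mem_cons_of_mem hx)) (by omega)
    have hex : ∃ i, ((A i).map w).sum + w t + o ≤ b i := by
      by_contra hne
      push Not at hne
      have h1 : ∑ i, b i < ∑ i : Fin 5, (((A i).map w).sum + w t + o) :=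
        Finset.sum_lt_sum_of_nonempty Finset.univ_nonempty fun i _ => hne i
      have h2 : ∑ i : Fin 5, (((A i).map w).sum + w t + o) =
          (L.map w).sum + 5 * (w t + o) := by
        rw [← hA]
        simp only [Finset.sum_add_distrib, Finset.sum_const, Finset.card_univ, Fintype.card_fin,
          smul_eq_mul]
        have h3 : ((∑ i, A i).map w).sum = ∑ i, ((A i).map w).sum := by
          exact map_sum (Multiset.sumAddMonoidHom.comp (Multiset.mapAddMonoidHom w)) A
            Finset.univ
        rw [h3]
        ring
      have h4 := hw t (mem_cons_self t L)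
      omega
    obtain ⟨i, hi⟩ := hex
    refine ⟨Function.update A i (t ::ₘ A i), ?_, fun j => ?_⟩
    · have h5 : ∑ j, Function.update A i (t ::ₘ A i) j =
          (t ::ₘ A i) + ∑ j ∈ Finset.univ.erase i, A j := by
        rw [← Finset.add_sum_erase _ _ (Finset.mem_univ i), Function.update_self]
        congr 1
        refine Finset.sum_congr rfl fun j hj => ?_
        rw [Function.update_of_ne (Finset.ne_of_mem_erase hj)]
      rw [h5, cons_add, Finset.add_sum_erase _ _ (Finset.mem_univ i), hA]
    · by_cases hj : j = i
      · subst hj
        right
        rw [Function.update_self, map_cons, sum_cons]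
        omega
      · rw [Function.update_of_ne hj]
        exact hA' j

end PDS.H48
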