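import Pool.Agent.Helper70_PDS.Stmts

/-!
# Squad PDS: module SMALL
-/

set_option autoImplicit false

namespace PDS.H48

open Multiset

/-- adjacency given by a list of edges -/
def adjB {m : ℕ} (l : List (Fin m × Fin m × Bool)) (a b : Fin m) : Bool :=
  l.any fun e => (e.1 == a && e.2.1 == b) || (e.1 == b && e.2.1 == a)

/-- page given by a list of edges -/
def pageB {m : ℕ} (l : List (Fin m × Fin m × Bool)) (a b : Fin m) : Bool :=
  l.any fun e => e.2.2 && ((e.1 == a && e.2.1 == b) || (e.1 == b && e.2.1 == a))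

/-- conditions on the list -/
def okB {m : ℕ} (l : List (Fin m × Fin m × Bool)) : Bool :=
  l.all fun e => decide (e.1 < e.2.1) && l.all fun f =>
    (!(e.1 == f.1 && e.2.1 == f.2.1) || (e.2.2 == f.2.2)) &&
    (!(e.2.2 == f.2.2) || !(decide (e.1 < f.1) && decide (f.1 < e.2.1) && decide (e.2.1 < f.2.1)))

theorem adjB_iff {m : ℕ} (l : List (Fin m × Fin m × Bool)) (a b : Fin m) :
    adjB l a b = true ↔ ∃ p, (a, b, p) ∈ l ∨ (b, a, p) ∈ l := by
  unfold adjB
  rw [List.any_eq_true]
  constructor
  · rintro ⟨⟨x, y, p⟩, he, h⟩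
    simp only [Bool.or_eq_true, Bool.and_eq_true, beq_iff_eq] at h
    rcases h with ⟨h1, h2⟩ | ⟨h1, h2⟩
    · subst h1; subst h2; exact ⟨p, Or.inl he⟩
    · subst h1; subst h2; exact ⟨p, Or.inr he⟩
  · rintro ⟨p, h | h⟩
    · exact ⟨_, h, by simp⟩
    · exact ⟨_, h, by simp⟩

theorem pageB_iff {m : ℕ} (l : List (Fin m × Fin m × Bool)) (a b : Fin m) :
    pageB l a b = true ↔ (a, b, true) ∈ l ∨ (b, a, true) ∈ l := by
  unfold pageB
  rw [List.any_eq_true]
  constructor
  · rintro ⟨⟨x, y, p⟩, he, h⟩
    simp only [Bool.or_eq_true, Bool.and_eq_true, beq_iff_eq] at h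
    obtain ⟨h0, h⟩ := h
    subst h0
    rcases h with ⟨h1, h2⟩ | ⟨h1, h2⟩
    · subst h1; subst h2; exact Or.inl he
    · subst h1; subst h2; exact Or.inr he
  · rintro (h | h)
    · exact ⟨_, h, by simp⟩
    · exact ⟨_, h, by simp⟩

theorem okB_spec {m : ℕ} {l : List (Fin m × Fin m × Bool)} (h : okB l = true) :
    (∀ a b p, (a, b, p) ∈ l → a < b) ∧
    (∀ a b p q, (a, b, p) ∈ l → (a, b, q) ∈ l → p = q) ∧
    ∀ a b c d p, (a, b, p) ∈ l → (c, d, p) ∈ l → a < c → c < b → b < d → False := by
  unfold okB at h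
  rw [List.all_eq_true] at h
  refine ⟨fun a b p hab => ?_, fun a b p q h1 h2 => ?_, fun a b c d p h1 h2 h3 h4 h5 => ?_⟩
  · have := h _ hab
    rw [Bool.and_eq_true] at this
    exact of_decide_eq_true this.1
  · have := h _ h1
    rw [Bool.and_eq_true, List.all_eq_true] at this
    have := this.2 _ h2
    simpa using this
  · have := h _ h1
    rw [Bool.and_eq_true, List.all_eq_true] at this
    have := this.2 _ h2
    simp [h3, h4, h5] at this

/-- the graph of a list of edges -/
def gr {m : ℕ} (l : List (Fin m × Fin m × Bool)) (h : okB l = true) : SimpleGraph (Fin m) where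
  Adj a b := adjB l a b = true
  symm := ⟨by
    intro a b hab
    rw [adjB_iff] at hab ⊢
    obtain ⟨p, hp⟩ := hab
    exact ⟨p, hp.symm⟩⟩
  loopless := ⟨by
    intro a ha
    rw [adjB_iff] at ha
    obtain ⟨p, hp | hp⟩ := ha
    · exact lt_irrefl _ ((okB_spec h).1 _ _ _ hp)
    · exact lt_irrefl _ ((okB_spec h).1 _ _ _ hp)⟩

theorem gr_book {m : ℕ} (l : List (Fin m × Fin m × Bool)) (h : okB l = true) :
    Book2 (gr l h) := by
  obtain ⟨h1, h2, h3⟩ := okB_spec h
  refine ⟨⟨fun a => (a : ℕ), fun a b => pageB l a b = true, ?_, ?_, ?_⟩⟩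
  · intro a b hab
    have hab' : ((a : ℕ) : ℝ) = ((b : ℕ) : ℝ) := hab
    exact Fin.ext (by exact_mod_cast hab')
  · intro a b hab
    rw [pageB_iff] at hab ⊢
    exact hab.symm
  · intro a b c d hab hcd hup hac hcb hbd
    have hac' : a < c := by
      rw [Fin.lt_def]; exact_mod_cast hac
    have hcb' : c < b := by
      rw [Fin.lt_def]; exact_mod_cast hcb
    have hbd' : b < d := by
      rw [Fin.lt_def]; exact_mod_cast hbd
    have hab' : adjB l a b = true := hab
    have hcd' : adjB l c d = true := hcd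
    rw [adjB_iff] at hab' hcd'
    obtain ⟨p, hp | hp⟩ := hab'
    · obtain ⟨q, hq | hq⟩ := hcd'
      · have hpq : p = q := by
          rw [pageB_iff, pageB_iff] at hup
          have nb : ∀ r, (b, a, r) ∉ l := fun r hr =>
            absurd (h1 _ _ _ hr) (not_lt.2 (hac'.trans hcb').le)
          have nd : ∀ r, (d, c, r) ∉ l := fun r hr =>
            absurd (h1 _ _ _ hr) (not_lt.2 (hcb'.trans hbd').le)
          cases p <;> cases q
          · rfl
          · exfalso
            rcases hup.2 (Or.inl hq) with hr | hr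
            · exact absurd (h2 _ _ _ _ hp hr) (by decide)
            · exact nb _ hr
          · exfalso
            rcases hup.1 (Or.inl hp) with hr | hr
            · exact absurd (h2 _ _ _ _ hq hr) (by decide)
            · exact nd _ hr
          · rfl
        subst hpq
        exact h3 _ _ _ _ _ hp hq hac' hcb' hbd'
      · exact absurd (h1 _ _ _ hq) (not_lt.2 (hcb'.trans hbd').le)
    · exact absurd (h1 _ _ _ hp) (not_lt.2 (hac'.trans hcb').le)

theorem gr_dg {m : ℕ} (l : List (Fin m × Fin m × Bool)) (h : okB l = true) (v : Fin m) :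
    dg (gr l h) v = (Finset.univ.filter fun w => adjB l v w = true).card := by
  unfold dg
  rw [← Set.ncard_coe_finset]
  congr 1
  ext w
  simp [gr, SimpleGraph.mem_neighborSet]

theorem rz_of_list {m : ℕ} (l : List (Fin m × Fin m × Bool)) (d : ℕ) (h : okB l = true)
    (hd : ∀ v : Fin m, (Finset.univ.filter fun w => adjB l v w = true).card = d) :
    Rz (replicate m d) := by
  refine ⟨Fin m, inferInstance, gr l h, gr_book l h, ?_⟩
  rw [eq_replicate]
  refine ⟨by simp, fun b hb => ?_⟩
  rw [mem_map] at hb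
  obtain ⟨v, _, rfl⟩ := hb
  rw [gr_dg, hd]

theorem rz_zero : Rz 0 := by
  refine ⟨Empty, inferInstance, ⊥, ⟨⟨fun e => e.elim, fun _ _ => True, fun e => e.elim,
    fun e => e.elim, fun e => e.elim⟩⟩, ?_⟩
  rfl

theorem rz_single : Rz {0} := by
  refine ⟨Unit, inferInstance, ⊥, ⟨⟨fun _ => 0, fun _ _ => True, fun _ _ _ => rfl,
    fun _ _ _ => trivial, fun a b _ _ h => ?_⟩⟩, ?_⟩
  · exact absurd h (by simp)
  · have : dg (⊥ : SimpleGraph Unit) () = 0 := by
      unfold dg
      simp
    show Multiset.map (dg (⊥ : SimpleGraph Unit)) {()} = {0}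
    rw [Multiset.map_singleton, this]

theorem small : SmallStmt := by
  refine ⟨rz_zero, rz_single, ?_, ?_, ?_, ?_, ?_, ?_⟩
  · exact rz_of_list (m := 2) [(0, 1, false)] 1 (by decide) (by decide)
  · exact rz_of_list (m := 3) [(0, 1, false), (1, 2, false), (0, 2, false)] 2
      (by decide) (by decide)
  · exact rz_of_list (m := 4) [(0, 1, false), (1, 2, false), (2, 3, false), (0, 3, false)] 2
      (by decide) (by decide)
  · exact rz_of_list (m := 4) [(0, 1, false), (1, 2, false), (2, 3, false), (0, 3, false),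
      (0, 2, false), (1, 3, true)] 3 (by decide) (by decide)
  · exact rz_of_list (m := 6) [(0, 1, false), (1, 2, false), (2, 3, false), (3, 4, false),
      (4, 5, false), (0, 5, false), (0, 2, true), (2, 4, true), (0, 4, true), (1, 3, false),
      (3, 5, false), (1, 5, false)] 4 (by decide) (by decide)
  · exact rz_of_list (m := 12) [(0, 1, false), (0, 2, false), (0, 5, false), (0, 11, false),
      (1, 2, false), (2, 3, false), (2, 4, false), (2, 5, false), (3, 4, false), (4, 5, false),
      (5, 6, false), (5, 11, false), (6, 7, false), (6, 10, false), (6, 11, false), (7, 8, false),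
      (7, 10, false), (8, 9, false), (8, 10, false), (9, 10, false), (10, 11, false), (0, 9, true),
      (1, 3, true), (1, 8, true), (1, 9, true), (3, 7, true), (3, 8, true), (4, 6, true),
      (4, 7, true), (9, 11, true)] 5 (by decide) (by decide)

end PDS.H48
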